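import Pool.Agent.CBG.StmtsA

set_option autoImplicit false
set_option maxSynthPendingDepth 3

open scoped Manifold ContDiff Topology
open Set Filter MeasureTheory

namespace Pool.Agent.CBG.H59

open Pool.Agent.CBG

theorem inv11_smul (κ : ℝ) (h : ℝ × ℝ → ℝ × ℝ → ℝ) :
    inv11 (fun a b => κ⁻¹ * h a b) = κ * inv11 h := by
  unfold inv11
  by_cases hκ : κ = 0
  · subst hκ
    simp
  · have e : κ⁻¹ * h (1, 0) (1, 0) * (κ⁻¹ * h (0, 1) (0, 1)) - (κ⁻¹ * h (1, 0) (0, 1)) ^ 2 =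
        κ⁻¹ * (κ⁻¹ * (h (1, 0) (1, 0) * h (0, 1) (0, 1) - h (1, 0) (0, 1) ^ 2)) := by ring
    rw [e, mul_div_mul_left _ _ (inv_ne_zero hκ), div_eq_mul_inv, mul_inv, inv_inv]
    ring

theorem posAt_congr {V : Type*} [NormedAddCommGroup V] [NormedSpace ℝ V] {G G' : V → Bil V}
    {x : V} (h : G =ᶠ[𝓝 x] G') (hG : PosAt G x) : PosAt G' x := by
  have h0 : G x = G' x := h.eq_of_nhds
  have h1 : fderiv ℝ G x = fderiv ℝ G' x := h.fderiv_eq
  have h2 : fderiv ℝ (fderiv ℝ G) x = fderiv ℝ (fderiv ℝ G') x := h.fderiv.fderiv_eq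
  have hchr : ∀ v w z, chr G x v w z = chr G' x v w z := by
    intro v w z
    unfold chr
    rw [h1]
  have hIs : ∀ v w a, IsChr G' x v w a → IsChr G x v w a := by
    intro v w a ha z
    rw [h0, hchr]
    exact ha z
  intro v w a b c hl ha hb hc
  have h3 := hG v w a b c hl (hIs _ _ _ ha) (hIs _ _ _ hb) (hIs _ _ _ hc)
  unfold curv at h3 ⊢
  rw [← h0, ← h2]
  exact h3

theorem clo (hCHX : ChxStmt) (hBRG : BrgStmt) (hCNF : CnfStmt) (hMU0 : Mu0Stmt)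
    (hCAV : CavStmt) : CloStmt := by
  intro n H X hD hconf hpos hmax
  obtain ⟨G, w, hG2, hGs, hGp, hGi, hGf, hw2, hwG, hwc, hw1, hwd, hwdd⟩ := hCAV n H X hD hconf
  have hsym : ∀ᶠ y in 𝓝 (0 : Ed n), ∀ v w : Ed n, G y v w = G y w v :=
    Filter.Eventually.of_forall hGs
  have hinv : ∀ y, inv11 (fun a b => G y (X a) (X b)) =
      (uav H X y ^ 2 * H 0 y (X (1, 0)) (X (1, 0))) *
        inv11 (fun a b => H 0 y (X a) (X b)) := by
    intro y
    rw [← inv11_smul]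
    congr 1
    funext a b
    rw [hGf y]
    rfl
  obtain ⟨v, z, hlin, hcurv⟩ := hBRG n G X hG2 hsym hGp hD.inj hGi (by
    filter_upwards [hmax] with y hy
    rw [hinv, hinv]
    exact hy)
  obtain ⟨a, ha⟩ := (hCHX.2 n G 0 hGp v z).1
  obtain ⟨b, hb⟩ := (hCHX.2 n G 0 hGp v v).1
  obtain ⟨c, hc⟩ := (hCHX.2 n G 0 hGp z z).1
  have hle := hcurv a b c ha hb hc
  have hF : ∀ t, 0 < w t 0 * curv G 0 v z a b c +
        (fderiv ℝ (fderiv ℝ (w t)) 0 v v * G 0 z z + fderiv ℝ (fderiv ℝ (w t)) 0 z z * G 0 v v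
          - 2 * fderiv ℝ (fderiv ℝ (w t)) 0 v z * G 0 v z)
        - (fderiv ℝ (w t) 0 b * G 0 z z + fderiv ℝ (w t) 0 c * G 0 v v
          - 2 * fderiv ℝ (w t) 0 a * G 0 v z) := by
    intro t
    exact hCNF n G (w t) hG2 (hw2 t).1 (hw2 t).2 hsym hGp (posAt_congr (hwG t) (hpos t)) v z a b c
      hlin ha hb hc
  have c1 := (hwdd v v).1
  have c2 := (hwdd z z).1
  have c3 := (hwdd v z).1
  have c4 := (hwd b).1
  have c5 := (hwd c).1
  have c6 := (hwd a).1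
  have hint := hMU0.2.2.2 _ (by fun_prop) hF
  have i0 : Integrable (fun t => w t 0 * curv G 0 v z a b c) mu := hMU0.2.1 ℝ _ (by fun_prop)
  have i1 : Integrable (fun t => fderiv ℝ (fderiv ℝ (w t)) 0 v v * G 0 z z) mu :=
    hMU0.2.1 ℝ _ (by fun_prop)
  have i2 : Integrable (fun t => fderiv ℝ (fderiv ℝ (w t)) 0 z z * G 0 v v) mu :=
    hMU0.2.1 ℝ _ (by fun_prop)
  have i3 : Integrable (fun t => 2 * fderiv ℝ (fderiv ℝ (w t)) 0 v z * G 0 v z) mu :=
    hMU0.2.1 ℝ _ (by fun_prop)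
  have i4 : Integrable (fun t => fderiv ℝ (w t) 0 b * G 0 z z) mu := hMU0.2.1 ℝ _ (by fun_prop)
  have i5 : Integrable (fun t => fderiv ℝ (w t) 0 c * G 0 v v) mu := hMU0.2.1 ℝ _ (by fun_prop)
  have i6 : Integrable (fun t => 2 * fderiv ℝ (w t) 0 a * G 0 v z) mu :=
    hMU0.2.1 ℝ _ (by fun_prop)
  have j1 : Integrable (fun t => fderiv ℝ (fderiv ℝ (w t)) 0 v v * G 0 z z +
      fderiv ℝ (fderiv ℝ (w t)) 0 z z * G 0 v v) mu := i1.add i2
  have j2 : Integrable (fun t => fderiv ℝ (fderiv ℝ (w t)) 0 v v * G 0 z z +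
      fderiv ℝ (fderiv ℝ (w t)) 0 z z * G 0 v v -
      2 * fderiv ℝ (fderiv ℝ (w t)) 0 v z * G 0 v z) mu := j1.sub i3
  have j3 : Integrable (fun t => w t 0 * curv G 0 v z a b c +
      (fderiv ℝ (fderiv ℝ (w t)) 0 v v * G 0 z z + fderiv ℝ (fderiv ℝ (w t)) 0 z z * G 0 v v
          - 2 * fderiv ℝ (fderiv ℝ (w t)) 0 v z * G 0 v z)) mu := i0.add j2
  have j4 : Integrable (fun t => fderiv ℝ (w t) 0 b * G 0 z z +
      fderiv ℝ (w t) 0 c * G 0 v v) mu := i4.add i5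
  have j5 : Integrable (fun t => fderiv ℝ (w t) 0 b * G 0 z z + fderiv ℝ (w t) 0 c * G 0 v v
          - 2 * fderiv ℝ (w t) 0 a * G 0 v z) mu := j4.sub i6
  rw [integral_sub j3 j5, integral_add i0 j2, integral_sub j1 i3, integral_add i1 i2,
    integral_sub j4 i6, integral_add i4 i5, integral_mul_const, integral_mul_const,
    integral_mul_const, integral_mul_const, integral_mul_const, integral_mul_const,
    integral_mul_const, integral_const_mul, integral_const_mul, hw1, (hwdd v v).2, (hwdd z z).2,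
    (hwdd v z).2, (hwd b).2, (hwd c).2, (hwd a).2] at hint
  linarith

end Pool.Agent.CBG.H59
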